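import Pool.Agent.Work.MP_db9399_sg.Interface

/-!
# MP_db9399, block FILL of SWG (helper79): the gadgets are filled by matchings
-/

set_option autoImplicit false

namespace Pool.Agent.Work.MP_db9399_sg.helper79

open Finset Classical
open Pool.Agent.Work.MP_db9399_all (nb mis)

universe u

section Hall

variable {V : Type u}

/-- Hall for dense bipartite graphs -/
theorem hall_dense (X Y : Finset V) (Fb : V → V → Prop) (t : ℕ)
    (hXY : X.card = Y.card) (h2 : 2 * t ≤ X.card)
    (h1 : ∀ x ∈ X, (Y.filter fun y => Fb x y).card ≤ t)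
    (h3 : ∀ y ∈ Y, (X.filter fun x => Fb x y).card ≤ t) :
    ∃ f : V → V, (∀ x ∈ X, f x ∈ Y ∧ ¬ Fb x (f x)) ∧ Set.InjOn f X := by
  have key : ∀ s : Finset {x // x ∈ X},
      s.card ≤ (s.biUnion fun x => Y.filter fun y => ¬ Fb x.1 y).card := by
    intro s
    rcases s.eq_empty_or_nonempty with rfl | ⟨x0, hx0⟩
    · simp
    have hc : ∀ x : {x // x ∈ X}, Y.card ≤ (Y.filter fun y => ¬ Fb x.1 y).card + t := by
      intro x
      have := Finset.card_filter_add_card_filter_not (s := Y) (fun y => Fb x.1 y)
      have := h1 x.1 x.2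
      omega
    by_cases hs : s.card + t ≤ X.card
    · have h4 : (Y.filter fun y => ¬ Fb x0.1 y).card ≤
          (s.biUnion fun x => Y.filter fun y => ¬ Fb x.1 y).card :=
        Finset.card_le_card (Finset.subset_biUnion_of_mem
          (fun x : {x // x ∈ X} => Y.filter fun y => ¬ Fb x.1 y) hx0)
      have := hc x0
      omega
    · have h5 : Y ⊆ s.biUnion fun x => Y.filter fun y => ¬ Fb x.1 y := by
        intro y hy
        by_contra hcon
        have h6 : (s.image fun x => x.1) ⊆ X.filter fun x => Fb x y := by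
          intro x hx
          rw [Finset.mem_image] at hx
          obtain ⟨x', hx', rfl⟩ := hx
          rw [Finset.mem_filter]
          refine ⟨x'.2, ?_⟩
          by_contra hF
          exact hcon (Finset.mem_biUnion.mpr ⟨x', hx', Finset.mem_filter.mpr ⟨hy, hF⟩⟩)
        have h7 := Finset.card_le_card h6
        rw [Finset.card_image_of_injective _ Subtype.val_injective] at h7
        have := h3 y hy
        omega
      have h8 := Finset.card_le_card h5
      have h9 : s.card ≤ X.card := by
        have := Finset.card_le_card (Finset.subset_univ s)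
        rwa [Finset.card_univ, Fintype.card_coe] at this
      omega
  obtain ⟨f, hf, hf'⟩ := (Finset.all_card_le_biUnion_card_iff_exists_injective
    (fun x : {x // x ∈ X} => Y.filter fun y => ¬ Fb x.1 y)).mp key
  refine ⟨fun v => if hv : v ∈ X then f ⟨v, hv⟩ else v, ?_, ?_⟩
  · intro x hx
    have := hf' ⟨x, hx⟩
    rw [Finset.mem_filter] at this
    simpa [hx] using this
  · intro x hx y hy hxy
    have hx' : x ∈ X := hx
    have hy' : y ∈ X := hy
    simp only [hx', hy', dif_pos] at hxy
    have := hf hxy
    exact congrArg Subtype.val this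

/-- the involution of a bijection -/
theorem inv_of (X Y : Finset V) (hd : ∀ v, v ∈ X → v ∉ Y) (hXY : X.card = Y.card)
    (f : V → V) (hf : ∀ x ∈ X, f x ∈ Y) (hi : Set.InjOn f X) :
    ∃ h : V → V, (∀ v, h (h v) = v) ∧ (∀ v, v ∉ X → v ∉ Y → h v = v) ∧ (∀ x ∈ X, h x = f x) ∧
      ∀ y ∈ Y, h y ∈ X ∧ f (h y) = y := by
  have him : X.image f = Y := by
    apply Finset.eq_of_subset_of_card_le
    · intro y hy
      rw [Finset.mem_image] at hy
      obtain ⟨x, hx, rfl⟩ := hy
      exact hf x hx
    · rw [Finset.card_image_of_injOn hi, hXY]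
  have hsur : ∀ y : V, ∃ x : V, y ∈ Y → x ∈ X ∧ f x = y := by
    intro y
    by_cases hy : y ∈ Y
    · have := hy
      rw [← him, Finset.mem_image] at this
      obtain ⟨x, hx, hxy⟩ := this
      exact ⟨x, fun _ => ⟨hx, hxy⟩⟩
    · exact ⟨y, fun h => absurd h hy⟩
  choose g hg using hsur
  refine ⟨fun v => if v ∈ X then f v else if v ∈ Y then g v else v, ?_, ?_, ?_, ?_⟩
  · intro v
    by_cases hX : v ∈ X
    · have h1 := hf v hX
      have h2 : f v ∉ X := fun h => hd _ h h1
      have h3 := hg (f v) h1
      simp only [hX, if_true, h2, if_false, h1]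
      exact hi h3.1 hX h3.2
    · by_cases hY : v ∈ Y
      · have h3 := hg v hY
        simp only [hX, if_false, hY, if_true, h3.1]
        exact h3.2
      · simp only [hX, hY, if_false]
  · intro v h1 h2
    simp only [h1, h2, if_false]
  · intro x hx
    simp only [hx, if_true]
  · intro y hy
    have h1 : y ∉ X := fun h => hd _ h hy
    simp only [h1, if_false, hy, if_true]
    exact hg y hy

end Hall

section Node

variable {V I : Type u} [Fintype V]

theorem mem_nsd {nd : V → Option (I × Bool)} {i : I} {s : Bool} {v : V} :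
    v ∈ nsd nd i s ↔ nd v = some (i, s) := by
  unfold nsd
  rw [Finset.mem_filter]
  exact ⟨fun h => h.2, fun h => ⟨Finset.mem_univ _, h⟩⟩

theorem mem_nod {nd : V → Option (I × Bool)} {i : I} {v : V} :
    v ∈ nod nd i ↔ ∃ s, nd v = some (i, s) := by
  unfold nod
  rw [Finset.mem_filter]
  exact ⟨fun h => h.2, fun h => ⟨Finset.mem_univ _, h⟩⟩

/-- one node, smaller uncovered side `s` -/
theorem node_aux (nd : V → Option (I × Bool)) (W : Finset V) (M : V → V) (Fb : V → V → Prop)
    (t : ℕ) (i : I) (s : Bool) (hsz : (nsd nd i s).card = (nsd nd i (!s)).card)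
    (hW : ∀ s, 2 * (nsd nd i s ∩ W).card ≤ (nsd nd i s).card)
    (h4 : ∀ s, 4 * t ≤ (nsd nd i s).card)
    (hdum : ∀ v, nd v ≠ none → v ∉ W → M v = v)
    (hFb : ∀ v, (univ.filter fun w => Fb v w).card ≤ t) (hsy : ∀ v w, Fb v w → Fb w v)
    (hU : ((nsd nd i s).filter fun v => M v = v).card ≤
      ((nsd nd i (!s)).filter fun v => M v = v).card) :
    ∃ h : V → V, (∀ v, h (h v) = v) ∧
      (∀ v, h v ≠ v → M v = v ∧ ∃ s, nd v = some (i, s) ∧ nd (h v) = some (i, !s) ∧
        ¬ Fb v (h v)) ∧
      (∀ v s, nd v = some (i, s) → M v = v → h v = v → v ∉ W) ∧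
      ((nod nd i).filter fun v => M v = v ∧ h v = v).card +
        ((nsd nd i s).filter fun v => M v = v).card =
        ((nsd nd i (!s)).filter fun v => M v = v).card := by
  set X := (nsd nd i s).filter fun v => M v = v with hX
  set U := (nsd nd i (!s)).filter fun v => M v = v with hUU
  have hXc : (nsd nd i s).card ≤ 2 * X.card := by
    have h1 : (nsd nd i s) \ W ⊆ X := by
      intro v hv
      rw [Finset.mem_sdiff] at hv
      rw [hX, Finset.mem_filter]
      refine ⟨hv.1, hdum v ?_ hv.2⟩
      rw [mem_nsd.mp hv.1]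
      simp
    have h2 := Finset.card_le_card h1
    have h3 := Finset.card_sdiff_add_card_inter (nsd nd i s) W
    have := hW s
    omega
  have hUW : (U ∩ W).card ≤ X.card := by
    have h1 : U ∩ W ⊆ nsd nd i (!s) ∩ W := by
      intro v hv
      rw [Finset.mem_inter, hUU, Finset.mem_filter] at hv
      exact Finset.mem_inter.mpr ⟨hv.1.1, hv.2⟩
    have h2 := Finset.card_le_card h1
    have := hW (!s)
    omega
  obtain ⟨Y, hY1, hY2, hY3⟩ := Finset.exists_subsuperset_card_eq
    (Finset.inter_subset_left : U ∩ W ⊆ U) hUW hU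
  obtain ⟨f, hf1, hf2⟩ := hall_dense X Y Fb t hY3.symm (by have := h4 s; omega)
    (fun x _ => (Finset.card_le_card (Finset.filter_subset_filter _ (Finset.subset_univ Y))).trans
      (hFb x))
    (fun y _ => by
      refine le_trans (Finset.card_le_card ?_) (hFb y)
      intro x hx
      rw [Finset.mem_filter] at hx ⊢
      exact ⟨Finset.mem_univ _, hsy _ _ hx.2⟩)
  have hd : ∀ v, v ∈ X → v ∉ Y := by
    intro v hv hv'
    have h1 := hY2 hv'
    rw [hUU, Finset.mem_filter, mem_nsd] at h1
    rw [hX, Finset.mem_filter, mem_nsd] at hv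
    have h2 := hv.1.symm.trans h1.1
    cases s <;> simp at h2
  obtain ⟨h, hi1, hi2, hi3, hi4⟩ := inv_of X Y hd hY3.symm f (fun x hx => (hf1 x hx).1) hf2
  have hXm : ∀ v ∈ X, nd v = some (i, s) ∧ M v = v := by
    intro v hv
    rw [hX, Finset.mem_filter, mem_nsd] at hv
    exact hv
  have hYm : ∀ v ∈ Y, nd v = some (i, !s) ∧ M v = v := by
    intro v hv
    have hv := hY2 hv
    rw [hUU, Finset.mem_filter, mem_nsd] at hv
    exact hv
  have hne : ∀ v, v ∈ X ∨ v ∈ Y → h v ≠ v := by
    intro v hv hvv
    rcases hv with hv | hv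
    · have h1 := (hf1 v hv).1
      rw [← hi3 v hv, hvv] at h1
      exact hd v hv h1
    · have h1 := (hi4 v hv).1
      rw [hvv] at h1
      exact hd v h1 hv
  refine ⟨h, hi1, ?_, ?_, ?_⟩
  · intro v hv
    by_cases h1 : v ∈ X
    · refine ⟨(hXm v h1).2, s, (hXm v h1).1, ?_, ?_⟩
      · rw [hi3 v h1]
        exact (hYm _ (hf1 v h1).1).1
      · rw [hi3 v h1]
        exact (hf1 v h1).2
    · by_cases h2 : v ∈ Y
      · have h3 := hi4 v h2
        refine ⟨(hYm v h2).2, !s, (hYm v h2).1, ?_, ?_⟩
        · rw [Bool.not_not]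
          exact (hXm _ h3.1).1
        · intro hF
          have h4 := (hf1 _ h3.1).2
          rw [h3.2] at h4
          exact h4 (hsy _ _ hF)
      · exact absurd (hi2 v h1 h2) hv
  · intro v s' hv hM hh hvW
    have h1 : v ∉ X := fun h => hne v (Or.inl h) hh
    have h2 : v ∉ Y := fun h => hne v (Or.inr h) hh
    by_cases hs : s' = s
    · subst hs
      exact h1 (Finset.mem_filter.mpr ⟨mem_nsd.mpr hv, hM⟩)
    · have hs' : s' = !s := by
        cases s' <;> cases s <;> simp_all
      rw [hs'] at hv
      exact h2 (hY1 (Finset.mem_inter.mpr ⟨Finset.mem_filter.mpr ⟨mem_nsd.mpr hv, hM⟩, hvW⟩))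
  · have h1 : ((nod nd i).filter fun v => M v = v ∧ h v = v) = U \ Y := by
      ext v
      rw [Finset.mem_filter, Finset.mem_sdiff, mem_nod]
      constructor
      · rintro ⟨⟨s', hs'⟩, hM, hh⟩
        have h1 : v ∉ X := fun h => hne v (Or.inl h) hh
        have h2 : v ∉ Y := fun h => hne v (Or.inr h) hh
        refine ⟨?_, h2⟩
        by_cases hs : s' = s
        · subst hs
          refine absurd ?_ h1
          rw [hX, Finset.mem_filter]
          exact ⟨mem_nsd.mpr hs', hM⟩
        · have hs'' : s' = !s := by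
            cases s' <;> cases s <;> simp_all
          rw [hs''] at hs'
          exact Finset.mem_filter.mpr ⟨mem_nsd.mpr hs', hM⟩
      · rintro ⟨hU1, hY1⟩
        rw [hUU, Finset.mem_filter, mem_nsd] at hU1
        refine ⟨⟨_, hU1.1⟩, hU1.2, ?_⟩
        by_cases h2 : v ∈ X
        · have := (hXm v h2).1.symm.trans hU1.1
          cases s <;> simp at this
        · exact hi2 v h2 hY1
    rw [h1, Finset.card_sdiff_of_subset hY2, hY3]
    exact Nat.sub_add_cancel hU

/-- one node -/
theorem node (nd : V → Option (I × Bool)) (W : Finset V) (M : V → V) (Fb : V → V → Prop)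
    (t : ℕ) (i : I) (hsz : (nsd nd i false).card = (nsd nd i true).card)
    (hW : ∀ s, 2 * (nsd nd i s ∩ W).card ≤ (nsd nd i s).card)
    (h4 : ∀ s, 4 * t ≤ (nsd nd i s).card)
    (hdum : ∀ v, nd v ≠ none → v ∉ W → M v = v)
    (hFb : ∀ v, (univ.filter fun w => Fb v w).card ≤ t) (hsy : ∀ v w, Fb v w → Fb w v) :
    ∃ h : V → V, (∀ v, h (h v) = v) ∧
      (∀ v, h v ≠ v → M v = v ∧ ∃ s, nd v = some (i, s) ∧ nd (h v) = some (i, !s) ∧
        ¬ Fb v (h v)) ∧
      (∀ v s, nd v = some (i, s) → M v = v → h v = v → v ∉ W) ∧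
      ((nod nd i).filter fun v => M v = v ∧ h v = v).card =
        ((((nsd nd i false).filter fun v => M v ≠ v).card : ℤ) -
          ((nsd nd i true).filter fun v => M v ≠ v).card).natAbs := by
  have hF := Finset.card_filter_add_card_filter_not (s := nsd nd i false) (fun v => M v = v)
  have hT := Finset.card_filter_add_card_filter_not (s := nsd nd i true) (fun v => M v = v)
  rcases le_total ((nsd nd i false).filter fun v => M v = v).card
    ((nsd nd i true).filter fun v => M v = v).card with hU | hU
  · obtain ⟨h, a1, a2, a3, a4⟩ := node_aux nd W M Fb t i false hsz hW h4 hdum hFb hsy hU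
    refine ⟨h, a1, a2, a3, ?_⟩
    simp only [Bool.not_false] at a4
    simp only [ne_eq]
    omega
  · obtain ⟨h, a1, a2, a3, a4⟩ := node_aux nd W M Fb t i true hsz.symm hW h4 hdum hFb hsy hU
    refine ⟨h, a1, a2, a3, ?_⟩
    simp only [Bool.not_true] at a4
    simp only [ne_eq]
    omega

/-- one colour -/
theorem step (nd : V → Option (I × Bool)) (W : Finset V) (M : V → V) (Fb : V → V → Prop)
    (t : ℕ) (hsz : ∀ i, (nsd nd i false).card = (nsd nd i true).card)
    (hW : ∀ i s, 2 * (nsd nd i s ∩ W).card ≤ (nsd nd i s).card)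
    (h4 : ∀ i s, 4 * t ≤ (nsd nd i s).card)
    (hdum : ∀ v, nd v ≠ none → v ∉ W → M v = v) (hMM : ∀ v, M (M v) = v)
    (hFb : ∀ v, (univ.filter fun w => Fb v w).card ≤ t) (hsy : ∀ v w, Fb v w → Fb w v) :
    ∃ M' : V → V, (∀ v, M' (M' v) = v) ∧ (∀ v, M v ≠ v → M' v = M v) ∧
      (∀ v, M v = v → M' v ≠ v → ∃ i s, nd v = some (i, s) ∧ nd (M' v) = some (i, !s) ∧
        ¬ Fb v (M' v)) ∧
      (∀ v, nd v ≠ none → M' v = v → v ∉ W) ∧
      ∀ i, ((nod nd i).filter fun v => M' v = v).card =
        ((((nsd nd i false).filter fun v => M v ≠ v).card : ℤ) -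
          ((nsd nd i true).filter fun v => M v ≠ v).card).natAbs := by
  have hex := fun i => node nd W M Fb t i (hsz i) (hW i) (h4 i) hdum hFb hsy
  choose h a1 a2 a3 a4 using hex
  let M' : V → V := fun v => if M v ≠ v then M v else
    match nd v with
    | none => v
    | some p => h p.1 v
  have e1 : ∀ v, M v ≠ v → M' v = M v := fun v hv => if_pos hv
  have e2 : ∀ v, M v = v → nd v = none → M' v = v := by
    intro v hv hn
    change (if M v ≠ v then M v else match nd v with
      | none => v
      | some p => h p.1 v) = v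
    rw [if_neg (by simpa using hv), hn]
  have e3 : ∀ v i s, M v = v → nd v = some (i, s) → M' v = h i v := by
    intro v i s hv hn
    change (if M v ≠ v then M v else match nd v with
      | none => v
      | some p => h p.1 v) = h i v
    rw [if_neg (by simpa using hv), hn]
  have hnew : ∀ v, M v = v → M' v ≠ v → ∃ i s, nd v = some (i, s) ∧ nd (M' v) = some (i, !s) ∧
      ¬ Fb v (M' v) ∧ M' v = h i v := by
    intro v hv hv'
    rcases hn : nd v with _ | ⟨i, s⟩
    · exact absurd (e2 v hv hn) hv'
    · have h1 := e3 v i s hv hn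
      rw [h1] at hv' ⊢
      obtain ⟨-, s', h2, h3, h4⟩ := a2 i v hv'
      rw [hn] at h2
      have h5 : s' = s := by
        have := Option.some.inj h2
        exact (congrArg Prod.snd this).symm
      rw [h5] at h3
      exact ⟨i, s, rfl, h3, h4, rfl⟩
  refine ⟨M', ?_, e1, ?_, ?_, ?_⟩
  · intro v
    by_cases hv : M v = v
    · by_cases hv' : M' v = v
      · rw [hv', hv']
      · obtain ⟨i, s, h1, h2, h3, h4⟩ := hnew v hv hv'
        have h5 : M (M' v) = M' v := by
          rw [h4] at hv' ⊢
          have h6 : h i (h i v) ≠ h i v := by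
            rw [a1]
            exact fun h => hv' h.symm
          exact (a2 i (h i v) h6).1
        rw [e3 (M' v) i (!s) h5 h2, h4, a1]
    · have h1 : M (M v) ≠ M v := by
        rw [hMM]
        exact fun h => hv h.symm
      rw [e1 v hv, e1 (M v) h1, hMM]
  · intro v hv hv'
    obtain ⟨i, s, h1, h2, h3, -⟩ := hnew v hv hv'
    exact ⟨i, s, h1, h2, h3⟩
  · intro v hn hv'
    rcases hn' : nd v with _ | ⟨i, s⟩
    · exact absurd hn' hn
    · by_cases hv : M v = v
      · rw [e3 v i s hv hn'] at hv'
        exact a3 i v s hn' hv hv'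
      · rw [e1 v hv] at hv'
        exact absurd hv' hv
  · intro i
    rw [← a4 i]
    congr 1
    ext v
    rw [Finset.mem_filter, Finset.mem_filter]
    constructor
    · rintro ⟨h1, h2⟩
      obtain ⟨s, hs⟩ := mem_nod.mp h1
      by_cases hv : M v = v
      · rw [e3 v i s hv hs] at h2
        exact ⟨h1, hv, h2⟩
      · rw [e1 v hv] at h2
        exact absurd h2 hv
    · rintro ⟨h1, hv, h2⟩
      obtain ⟨s, hs⟩ := mem_nod.mp h1
      rw [e3 v i s hv hs]
      exact ⟨h1, h2⟩

end Node

theorem stmt_FILL : Stmt_FILL.{u} := by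
  intro V I _ _ H S W nd P N q hsz hq hW h4 hN hNS hdum
  obtain ⟨NN, NG, Nd⟩ := hN
  have key : ∀ B : Finset (Fin P), ∃ N' : Fin P → V → V, (∀ b, b ∉ B → N' b = N b) ∧
      (∀ b v, N' b (N' b v) = v) ∧
      (∀ b v, N b v ≠ v → N' b v = N b v) ∧
      (∀ b v, N b v = v → N' b v ≠ v → ∃ i s, nd v = some (i, s) ∧ nd (N' b v) = some (i, !s) ∧
        ¬ H.Adj v (N' b v) ∧ ¬ S.Adj v (N' b v)) ∧
      (∀ b b' v, N' b v ≠ v → N' b v = N' b' v → b = b') ∧
      (∀ b ∈ B, ∀ v, nd v ≠ none → N' b v = v → v ∉ W) ∧
      ∀ b ∈ B, ∀ i, ((nod nd i).filter fun v => N' b v = v).card = (sgn nd N i b).natAbs := by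
    intro B
    induction B using Finset.induction_on with
    | empty =>
      refine ⟨N, fun _ _ => rfl, NN, fun _ _ _ => rfl, ?_, Nd, ?_, ?_⟩
      · intro b v h1 h2
        exact absurd h1 h2
      · intro b hb
        exact absurd hb (Finset.notMem_empty b)
      · intro b hb
        exact absurd hb (Finset.notMem_empty b)
    | insert b0 B hb0 ih =>
      obtain ⟨M, m1, m2, m3, m4, m5, m6, m7⟩ := ih
      have hM0 : M b0 = N b0 := m1 b0 hb0
      obtain ⟨Fb, hFbd⟩ : ∃ Fb : V → V → Prop, ∀ v w,
          Fb v w ↔ (H.Adj v w ∨ S.Adj v w ∨ ∃ b, M b v = w) := ⟨_, fun _ _ => Iff.rfl⟩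
      have hsy : ∀ v w, Fb v w → Fb w v := by
        intro v w hvw
        rw [hFbd] at hvw ⊢
        rcases hvw with h | h | ⟨b, h⟩
        · exact Or.inl h.symm
        · exact Or.inr (Or.inl h.symm)
        · refine Or.inr (Or.inr ⟨b, ?_⟩)
          rw [← h, m2]
      have hFb : ∀ v, (univ.filter fun w => Fb v w).card ≤ P + q := by
        intro v
        have h1 : (univ.filter fun w => Fb v w) ⊆
            (nb H v ∪ nb S v) ∪ univ.image fun b => M b v := by
          intro w hw
          rw [Finset.mem_filter] at hw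
          rw [Finset.mem_union, Finset.mem_union, Finset.mem_image]
          unfold nb
          rw [Finset.mem_filter, Finset.mem_filter]
          rcases (hFbd _ _).mp hw.2 with h | h | ⟨b, h⟩
          · exact Or.inl (Or.inl ⟨Finset.mem_univ _, h⟩)
          · exact Or.inl (Or.inr ⟨Finset.mem_univ _, h⟩)
          · exact Or.inr ⟨b, Finset.mem_univ _, h⟩
        have h2 := Finset.card_le_card h1
        have h3 := Finset.card_union_le (nb H v ∪ nb S v) (univ.image fun b => M b v)
        have h4 := Finset.card_union_le (nb H v) (nb S v)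
        have h5 : (univ.image fun b => M b v).card ≤ P := by
          refine Finset.card_image_le.trans ?_
          rw [Finset.card_univ, Fintype.card_fin]
        have := hq v
        omega
      obtain ⟨M', a1, a2, a3, a4, a5⟩ := step nd W (N b0) Fb (P + q) hsz hW h4
        (hdum b0) (NN b0) hFb hsy
      refine ⟨Function.update M b0 M', ?_, ?_, ?_, ?_, ?_, ?_, ?_⟩
      · intro b hb
        rw [Finset.mem_insert, not_or] at hb
        rw [Function.update_of_ne hb.1]
        exact m1 b hb.2
      · intro b v
        by_cases hb : b = b0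
        · subst hb
          rw [Function.update_self]
          exact a1 v
        · rw [Function.update_of_ne hb]
          exact m2 b v
      · intro b v
        by_cases hb : b = b0
        · subst hb
          rw [Function.update_self]
          exact a2 v
        · rw [Function.update_of_ne hb]
          exact m3 b v
      · intro b v
        by_cases hb : b = b0
        · subst hb
          rw [Function.update_self]
          intro h1 h2
          obtain ⟨i, s, h3, h4, h5⟩ := a3 v h1 h2
          rw [hFbd, not_or, not_or] at h5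
          exact ⟨i, s, h3, h4, h5.1, h5.2.1⟩
        · rw [Function.update_of_ne hb]
          exact m4 b v
      · have hmix : ∀ b v, b ≠ b0 → M' v ≠ v → M' v = M b v → False := by
          intro b v hb h1 h2
          by_cases h3 : N b0 v = v
          · obtain ⟨i, s, h4, h5, h6⟩ := a3 v h3 h1
            exact h6 ((hFbd _ _).mpr (Or.inr (Or.inr ⟨b, h2.symm⟩)))
          · have h4 := a2 v h3
            rw [h4, ← hM0] at h1 h2
            exact hb (m5 b0 b v h1 h2).symm
        intro b b' v h1 h2
        by_cases hb : b = b0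
        · subst hb
          by_cases hb' : b' = b
          · exact hb'.symm
          · rw [Function.update_self] at h1 h2
            rw [Function.update_of_ne hb'] at h2
            exact (hmix b' v hb' h1 h2).elim
        · rw [Function.update_of_ne hb] at h1 h2
          by_cases hb' : b' = b0
          · subst hb'
            rw [Function.update_self] at h2
            rw [h2] at h1
            exact (hmix b v hb h1 h2.symm).elim
          · rw [Function.update_of_ne hb'] at h2
            exact m5 b b' v h1 h2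
      · intro b hb v
        by_cases hb' : b = b0
        · subst hb'
          rw [Function.update_self]
          exact a4 v
        · rw [Function.update_of_ne hb']
          exact m6 b (Finset.mem_of_mem_insert_of_ne hb hb') v
      · intro b hb i
        by_cases hb' : b = b0
        · subst hb'
          rw [Function.update_self]
          exact a5 i
        · rw [Function.update_of_ne hb']
          exact m7 b (Finset.mem_of_mem_insert_of_ne hb hb') i
  obtain ⟨N', -, n2, n3, n4, n5, n6, n7⟩ := key univ
  exact ⟨N', n2, n3, n4, n5, fun b v => n6 b (Finset.mem_univ b) v,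
    fun i b => n7 b (Finset.mem_univ b) i⟩

end Pool.Agent.Work.MP_db9399_sg.helper79
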