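import Pool.Agent.Work.MP_db9399_sg_helper79.HOSTB
import Pool.Agent.Work.MP_db9399_sg_helper79.FILL

/-!
# MP_db9399, block HOST of SWG (helper79): gadget host graphs
-/

set_option autoImplicit false

namespace Pool.Agent.Work.MP_db9399_sg.helper79

open Finset Classical
open Pool.Agent.Work.MP_db9399_all (nb mis)
open Pool.Agent.Work.MP_db9399_cg (cdg)

universe u v

/-- One gadget, both sides at once. -/
theorem gadget2 (k D m : ℕ) (R : Bool → Type u) [∀ s, Fintype (R s)] (n : Bool → ℕ)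
    (h : ∀ s, R s → ℕ) (hk : 0 < k) (hD : 1 ≤ D)
    (ht : 32 * (2 * k * (m / (k * k) + 2) + 1) ≤ D) (h8 : ∀ s x, 8 * h s x ≤ D)
    (hr : ∀ s, 4 * Fintype.card (R s) ≤ m) (hn : ∀ s, Fintype.card (R s) + n s = m)
    (hm : 8 * D ≤ m) (hab : |((∑ x, h false x : ℕ) : ℤ) - (∑ x, h true x : ℕ)| ≤ D) :
    ∃ Es : (s : Bool) → R s ⊕ Fin (n s) → R (!s) ⊕ Fin (n (!s)) → Prop,
      (∀ p q, Es false p q → Es true q p) ∧ (∀ p q, Es true p q → Es false q p) ∧
      (∀ s x y, ¬ Es s (Sum.inl x) (Sum.inl y)) ∧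
      (∀ s x, (univ.filter fun q => Es s (Sum.inl x) q).card + h s x = D) ∧
      (∀ s x, (univ.filter fun q => Es s (Sum.inr x) q).card ≤ D ∧
        D ≤ (univ.filter fun q => Es s (Sum.inr x) q).card + 1) ∧
      (univ.filter fun x : Fin (n false) =>
          (univ.filter fun q => Es false (Sum.inr x) q).card + 1 = D).card +
        (univ.filter fun x : Fin (n true) =>
          (univ.filter fun q => Es true (Sum.inr x) q).card + 1 = D).card =
        (((∑ x, h false x : ℕ) : ℤ) - (∑ x, h true x : ℕ)).natAbs ∧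
      ∀ s p p', n (!s) / (k * k) ≤ (univ.filter fun q => Es s p q ∧ Es s p' q).card := by
  obtain ⟨E, g1, g2, g3, g4, g5, g6, g7, g8⟩ := gadget k D m (n false) (n true) (h false) (h true)
    hk hD ht (h8 false) (h8 true) (hr false) (hr true) (hn false) (hn true) hm hab
  refine ⟨fun s => match s with
    | false => fun p q => E p q
    | true => fun p q => E q p, ?_, ?_, ?_, ?_, ?_, ?_, ?_⟩
  · intro p q hpq
    exact hpq
  · intro p q hpq
    exact hpq
  · intro s x y
    cases s with
    | false => exact g1 x y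
    | true => exact g1 y x
  · intro s x
    cases s with
    | false => exact g2 x
    | true => exact g3 x
  · intro s x
    cases s with
    | false => exact g4 x
    | true => exact g5 x
  · exact g6
  · intro s p p'
    cases s with
    | false => exact g7 p p'
    | true => exact g8 p p'

section Glue

variable {W I : Type u} [Fintype W]

/-- number of dummies -/
noncomputable def nn0 (nd0 : W → Option (I × Bool)) (m : I → ℕ) (i : I) (s : Bool) : ℕ :=
  m i - (nsd nd0 i s).card

/-- the dummies -/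
abbrev DX (nd0 : W → Option (I × Bool)) (m : I → ℕ) : Type u :=
  Σ p : I × Bool, Fin (nn0 nd0 m p.1 p.2)

/-- the vertices of one side of one gadget -/
abbrev SD (nd0 : W → Option (I × Bool)) (m : I → ℕ) (i : I) (s : Bool) : Type u :=
  {v : W // nd0 v = some (i, s)} ⊕ Fin (nn0 nd0 m i s)

/-- the nodes -/
def ndx (nd0 : W → Option (I × Bool)) (m : I → ℕ) : W ⊕ DX nd0 m → Option (I × Bool) :=
  Sum.elim nd0 (fun x => some x.1)

/-- the embedding of a side -/
def io (nd0 : W → Option (I × Bool)) (m : I → ℕ) (i : I) (s : Bool) :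
    SD nd0 m i s → W ⊕ DX nd0 m :=
  Sum.elim (fun v => Sum.inl v.1) (fun j => Sum.inr ⟨(i, s), j⟩)

theorem ndx_io (nd0 : W → Option (I × Bool)) (m : I → ℕ) (i : I) (s : Bool)
    (p : SD nd0 m i s) : ndx nd0 m (io nd0 m i s p) = some (i, s) := by
  rcases p with p | p
  · exact p.2
  · rfl

theorem io_inj (nd0 : W → Option (I × Bool)) (m : I → ℕ) (i : I) (s : Bool) :
    Function.Injective (io nd0 m i s) := by
  intro p q h
  rcases p with p | p <;> rcases q with q | q
  · have h1 : p.1 = q.1 := Sum.inl.inj h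
    rw [Subtype.ext h1]
  · exact absurd h (by simp [io])
  · exact absurd h (by simp [io])
  · have h1 := Sum.inr.inj h
    have h2 := eq_of_heq (Sigma.mk.inj h1).2
    rw [h2]

theorem io_sur (nd0 : W → Option (I × Bool)) (m : I → ℕ) (i : I) (s : Bool)
    (v : W ⊕ DX nd0 m) (h : ndx nd0 m v = some (i, s)) : ∃ p, io nd0 m i s p = v := by
  rcases v with v | ⟨⟨i', s'⟩, j⟩
  · exact ⟨Sum.inl ⟨v, h⟩, rfl⟩
  · have h1 : (i', s') = (i, s) := Option.some.inj h
    obtain ⟨rfl, rfl⟩ := Prod.mk.inj h1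
    exact ⟨Sum.inr j, rfl⟩

theorem card_side (nd0 : W → Option (I × Bool)) (i : I) (s : Bool) :
    Fintype.card {v : W // nd0 v = some (i, s)} = (nsd nd0 i s).card := by
  rw [Fintype.card_subtype]
  rfl

theorem sum_side (nd0 : W → Option (I × Bool)) (i : I) (s : Bool) (f : W → ℕ) :
    ∑ v : {v : W // nd0 v = some (i, s)}, f v.1 = ∑ v ∈ nsd nd0 i s, f v := by
  exact (Finset.sum_subtype (nsd nd0 i s) (fun x => mem_nsd) f).symm

/-- the graph of the gadgets -/
def gg (H : SimpleGraph W) (nd0 : W → Option (I × Bool)) (m : I → ℕ)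
    (Es : (i : I) → (s : Bool) → SD nd0 m i s → SD nd0 m i (!s) → Prop)
    (v w : W ⊕ DX nd0 m) : Prop :=
  (∃ a b, v = Sum.inl a ∧ w = Sum.inl b ∧ H.Adj a b) ∨
    ∃ i s p q, Es i s p q ∧ v = io nd0 m i s p ∧ w = io nd0 m i (!s) q

theorem gg_io (H : SimpleGraph W) (nd0 : W → Option (I × Bool)) (m : I → ℕ)
    (Es : (i : I) → (s : Bool) → SD nd0 m i s → SD nd0 m i (!s) → Prop)
    (i : I) (s : Bool) (p : SD nd0 m i s) (w : W ⊕ DX nd0 m) :
    gg H nd0 m Es (io nd0 m i s p) w ↔
      ((∃ a b, io nd0 m i s p = Sum.inl a ∧ w = Sum.inl b ∧ H.Adj a b) ∨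
        ∃ q, Es i s p q ∧ w = io nd0 m i (!s) q) := by
  constructor
  · rintro (h | ⟨i', s', p', q', h1, h2, h3⟩)
    · exact Or.inl h
    · have h4 := congrArg (ndx nd0 m) h2
      rw [ndx_io, ndx_io] at h4
      obtain ⟨rfl, rfl⟩ := Prod.mk.inj (Option.some.inj h4)
      have h5 := io_inj nd0 m i s h2
      subst h5
      exact Or.inr ⟨q', h1, h3⟩
  · rintro (h | ⟨q, h1, h2⟩)
    · exact Or.inl h
    · exact Or.inr ⟨i, s, p, q, h1, rfl, h2⟩

end Glue

theorem stmt_HOST : Stmt_HOST.{u} := by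
  intro C hC
  obtain ⟨k, hk0, hkC⟩ : ∃ k : ℕ, 0 < k ∧ 128 * C ≤ k := by
    obtain ⟨k, hk⟩ := exists_nat_ge (128 * C)
    refine ⟨k, ?_, hk⟩
    have h1 : (0 : ℝ) < k := by linarith
    exact_mod_cast h1
  have hkk : 0 < k * k := Nat.mul_pos hk0 hk0
  refine ⟨1 / ((k * k : ℕ) : ℝ), max (256 * k + 64) (k * k), by positivity, ?_⟩
  intro W I _ _ H nd0 D m hD h8 h4 hm8 hmC hab
  have hD1 : 256 * k + 64 ≤ D := (le_max_left _ _).trans hD
  have hD2 : k * k ≤ D := (le_max_right _ _).trans hD
  have hDp : 1 ≤ D := by omega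
  have ht : ∀ i, 32 * (2 * k * (m i / (k * k) + 2) + 1) ≤ D := by
    intro i
    have h1 : ((m i / (k * k) : ℕ) : ℝ) ≤ C * D / (k * k) := by
      refine (Nat.cast_div_le).trans ?_
      push_cast
      exact div_le_div_of_nonneg_right (hmC i) (by positivity)
    have hkp : (0 : ℝ) < k := by exact_mod_cast hk0
    have hDr : (256 * k + 64 : ℝ) ≤ D := by exact_mod_cast hD1
    have h2 : (k : ℝ) * (C * D / (k * k)) = C * D / k := by
      field_simp
    have h3 : C * D / k ≤ D / 128 := by
      rw [div_le_div_iff₀ hkp (by norm_num)]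
      have : (0 : ℝ) ≤ D := by positivity
      nlinarith
    have h5 : (k : ℝ) * ((m i / (k * k) : ℕ) : ℝ) ≤ D / 128 := by
      refine (mul_le_mul_of_nonneg_left h1 hkp.le).trans ?_
      rw [h2]
      exact h3
    have h6 : (32 * (2 * k * (((m i / (k * k) : ℕ) : ℝ) + 2) + 1) : ℝ) ≤ D := by
      nlinarith
    exact_mod_cast h6
  have hn : ∀ i s, (nsd nd0 i s).card + nn0 nd0 m i s = m i := by
    intro i s
    unfold nn0
    have := h4 i s
    omega
  have hex := fun i => gadget2 k D (m i) (fun s => {v : W // nd0 v = some (i, s)})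
    (fun s => nn0 nd0 m i s) (fun s v => (nb H v.1).card) hk0 hDp (ht i)
    (fun s v => h8 v.1 (by rw [v.2]; simp))
    (fun s => by rw [card_side]; exact h4 i s)
    (fun s => by rw [card_side]; exact hn i s)
    (hm8 i)
    (by
      rw [sum_side nd0 i false (fun v => (nb H v).card), sum_side nd0 i true
        (fun v => (nb H v).card)]
      push_cast
      exact hab i)
  choose Es b1 b2 b3 b4 b5 b6 b7 using hex
  let Gh : SimpleGraph (W ⊕ DX nd0 m) :=
    { Adj := gg H nd0 m Es
      symm := ⟨by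
        rintro v w (⟨a, b, h1, h2, h3⟩ | ⟨i, s, p, q, h1, h2, h3⟩)
        · exact Or.inl ⟨b, a, h2, h1, h3.symm⟩
        · cases s with
          | false => exact Or.inr ⟨i, true, q, p, b1 i p q h1, h3, h2⟩
          | true => exact Or.inr ⟨i, false, q, p, b2 i p q h1, h3, h2⟩⟩
      loopless := ⟨by
        rintro v (⟨a, b, h1, h2, h3⟩ | ⟨i, s, p, q, h1, h2, h3⟩)
        · rw [h1] at h2
          rw [Sum.inl.inj h2] at h3
          exact H.loopless.irrefl _ h3
        · rw [h2] at h3
          have h4 := congrArg (ndx nd0 m) h3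
          rw [ndx_io, ndx_io] at h4
          have h5 := (Prod.mk.inj (Option.some.inj h4)).2
          cases s <;> simp at h5⟩ }
  have hG : ∀ v w, Gh.Adj v w ↔ gg H nd0 m Es v w := fun _ _ => Iff.rfl
  have dgd : ∀ i s (j : Fin (nn0 nd0 m i s)), (nb Gh (io nd0 m i s (Sum.inr j))).card =
      (univ.filter fun q => Es i s (Sum.inr j) q).card := by
    intro i s j
    rw [← Finset.card_map ⟨io nd0 m i (!s), io_inj nd0 m i (!s)⟩]
    congr 1
    ext w
    unfold nb
    rw [Finset.mem_filter, hG, gg_io, Finset.mem_map]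
    constructor
    · rintro ⟨-, ⟨a, b, h1, -, -⟩ | ⟨q, h1, h2⟩⟩
      · exact absurd h1 (by simp [io])
      · exact ⟨q, Finset.mem_filter.mpr ⟨Finset.mem_univ _, h1⟩, h2.symm⟩
    · rintro ⟨q, h1, h2⟩
      exact ⟨Finset.mem_univ _, Or.inr ⟨q, (Finset.mem_filter.mp h1).2, h2.symm⟩⟩
  have dgr : ∀ i s x, (nb Gh (io nd0 m i s (Sum.inl x))).card = D := by
    intro i s x
    have h1 : nb Gh (io nd0 m i s (Sum.inl x)) =
        (nb H x.1).map ⟨Sum.inl, Sum.inl_injective⟩ ∪
          (univ.filter fun q => Es i s (Sum.inl x) q).map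
            ⟨io nd0 m i (!s), io_inj nd0 m i (!s)⟩ := by
      ext w
      rw [Finset.mem_union, Finset.mem_map, Finset.mem_map]
      unfold nb
      rw [Finset.mem_filter, hG, gg_io]
      constructor
      · rintro ⟨-, ⟨a, b, h1, h2, h3⟩ | ⟨q, h1, h2⟩⟩
        · left
          have h4 : x.1 = a := Sum.inl.inj h1
          refine ⟨b, Finset.mem_filter.mpr ⟨Finset.mem_univ _, ?_⟩, h2.symm⟩
          rw [h4]
          exact h3
        · exact Or.inr ⟨q, Finset.mem_filter.mpr ⟨Finset.mem_univ _, h1⟩, h2.symm⟩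
      · rintro (⟨b, h1, h2⟩ | ⟨q, h1, h2⟩)
        · exact ⟨Finset.mem_univ _, Or.inl ⟨x.1, b, rfl, h2.symm, (Finset.mem_filter.mp h1).2⟩⟩
        · exact ⟨Finset.mem_univ _, Or.inr ⟨q, (Finset.mem_filter.mp h1).2, h2.symm⟩⟩
    rw [h1, Finset.card_union_of_disjoint, Finset.card_map, Finset.card_map]
    · have h2 := b4 i s x
      omega
    · rw [Finset.disjoint_left]
      intro w hw hw'
      rw [Finset.mem_map] at hw hw'
      obtain ⟨b, -, hb⟩ := hw
      obtain ⟨q, hq, hq'⟩ := hw'
      rcases q with q | q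
      · exact b3 i s x q (Finset.mem_filter.mp hq).2
      · rw [← hb] at hq'
        exact absurd hq' (by simp [io])
  have hcard : ∀ i s, (nsd (ndx nd0 m) i s).card = m i := by
    intro i s
    have h1 : nsd (ndx nd0 m) i s =
        (univ : Finset (SD nd0 m i s)).map ⟨io nd0 m i s, io_inj nd0 m i s⟩ := by
      ext v
      rw [mem_nsd, Finset.mem_map]
      constructor
      · intro h
        obtain ⟨p, hp⟩ := io_sur nd0 m i s v h
        exact ⟨p, Finset.mem_univ _, hp⟩
      · rintro ⟨p, -, rfl⟩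
        exact ndx_io nd0 m i s p
    rw [h1, Finset.card_map, Finset.card_univ, Fintype.card_sum, card_side, Fintype.card_fin]
    exact hn i s
  refine ⟨DX nd0 m, inferInstance, Gh, ndx nd0 m, ?_, fun _ => rfl, ?_, hcard, ?_, ?_, ?_, ?_, ?_⟩
  · intro v w
    rw [hG]
    constructor
    · rintro (⟨a, b, h1, h2, h3⟩ | ⟨i, s, p, q, h1, h2, h3⟩)
      · rw [Sum.inl.inj h1, Sum.inl.inj h2]
        exact h3
      · rcases p with p | p
        · rcases q with q | q
          · exact absurd h1 (b3 i s p q)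
          · exact absurd h3 (by simp [io])
        · exact absurd h2 (by simp [io])
    · intro h
      exact Or.inl ⟨v, w, rfl, rfl, h⟩
  · intro x
    simp [ndx]
  · intro v x h
    rw [hG] at h
    rcases h with ⟨a, b, h1, h2, h3⟩ | ⟨i, s, p, q, h1, h2, h3⟩
    · exact absurd h2 (by simp)
    · refine ⟨i, s, ?_, ?_⟩
      · rw [h2, ndx_io]
      · rw [h3, ndx_io]
  · intro v hv
    rcases hn0 : nd0 v with _ | ⟨i, s⟩
    · exact absurd hn0 hv
    · exact dgr i s ⟨v, hn0⟩
  · rintro ⟨⟨i, s⟩, j⟩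
    have h1 := dgd i s j
    have h2 := b5 i s j
    rw [← h1] at h2
    exact h2
  · intro i
    have h1 : ((nod (ndx nd0 m) i).filter fun v => (nb Gh v).card + 1 = D) =
        (univ.filter fun x : Fin (nn0 nd0 m i false) =>
          (univ.filter fun q => Es i false (Sum.inr x) q).card + 1 = D).map
            ⟨fun x => io nd0 m i false (Sum.inr x),
              (io_inj nd0 m i false).comp Sum.inr_injective⟩ ∪
        (univ.filter fun x : Fin (nn0 nd0 m i true) =>
          (univ.filter fun q => Es i true (Sum.inr x) q).card + 1 = D).map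
            ⟨fun x => io nd0 m i true (Sum.inr x),
              (io_inj nd0 m i true).comp Sum.inr_injective⟩ := by
      ext v
      rw [Finset.mem_filter, Finset.mem_union, Finset.mem_map, Finset.mem_map, mem_nod]
      constructor
      · rintro ⟨⟨s, hs⟩, hd⟩
        obtain ⟨p, rfl⟩ := io_sur nd0 m i s v hs
        rcases p with p | p
        · rw [dgr] at hd
          omega
        · rw [dgd] at hd
          cases s with
          | false => exact Or.inl ⟨p, Finset.mem_filter.mpr ⟨Finset.mem_univ _, hd⟩, rfl⟩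
          | true => exact Or.inr ⟨p, Finset.mem_filter.mpr ⟨Finset.mem_univ _, hd⟩, rfl⟩
      · rintro (⟨p, hp, rfl⟩ | ⟨p, hp, rfl⟩)
        · refine ⟨⟨false, ndx_io nd0 m i false (Sum.inr p)⟩, ?_⟩
          have h2 := (Finset.mem_filter.mp hp).2
          rw [← dgd] at h2
          exact h2
        · refine ⟨⟨true, ndx_io nd0 m i true (Sum.inr p)⟩, ?_⟩
          have h2 := (Finset.mem_filter.mp hp).2
          rw [← dgd] at h2
          exact h2
    rw [h1, Finset.card_union_of_disjoint, Finset.card_map, Finset.card_map, b6 i,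
      sum_side nd0 i false (fun v => (nb H v).card), sum_side nd0 i true
        (fun v => (nb H v).card)]
    · push_cast
      rfl
    · rw [Finset.disjoint_left]
      intro v hv hv'
      rw [Finset.mem_map] at hv hv'
      obtain ⟨x, -, hx⟩ := hv
      obtain ⟨y, -, hy⟩ := hv'
      have h2 : io nd0 m i false (Sum.inr x) = io nd0 m i true (Sum.inr y) := hx.trans hy.symm
      have h3 := congrArg (ndx nd0 m) h2
      rw [ndx_io, ndx_io] at h3
      have h4 := (Prod.mk.inj (Option.some.inj h3)).2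
      simp at h4
  · intro i s u hu w hw
    obtain ⟨p, rfl⟩ := io_sur nd0 m i s u (mem_nsd.mp hu)
    obtain ⟨p', rfl⟩ := io_sur nd0 m i s w (mem_nsd.mp hw)
    have h1 : ((nn0 nd0 m i (!s) / (k * k) : ℕ) : ℝ) ≤
        cdg Gh (io nd0 m i s p) (io nd0 m i s p') := by
      unfold cdg
      rw [Nat.cast_le]
      refine (b7 i s p p').trans ?_
      rw [← Finset.card_map ⟨io nd0 m i (!s), io_inj nd0 m i (!s)⟩]
      apply Finset.card_le_card
      intro v hv
      rw [Finset.mem_map] at hv
      obtain ⟨q, hq, rfl⟩ := hv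
      rw [Finset.mem_filter] at hq
      refine (@Finset.mem_inter _ (fun a b => propDecidable (a = b)) _ _ _).mpr ?_
      unfold nb
      rw [Finset.mem_filter, Finset.mem_filter, hG, hG, gg_io, gg_io]
      exact ⟨⟨Finset.mem_univ _, Or.inr ⟨q, hq.2.1, rfl⟩⟩,
        ⟨Finset.mem_univ _, Or.inr ⟨q, hq.2.2, rfl⟩⟩⟩
    have h2 : D ≤ k * k * (nn0 nd0 m i (!s) / (k * k)) := by
      have h3 := Nat.div_add_mod (nn0 nd0 m i (!s)) (k * k)
      have h4' := Nat.mod_lt (nn0 nd0 m i (!s)) hkk
      have h5 := hn i (!s)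
      have h6 := h4 i (!s)
      have h7 := hm8 i
      omega
    rw [one_div, inv_mul_le_iff₀ (by positivity)]
    have h3 : (D : ℝ) ≤ ((k * k : ℕ) : ℝ) * ((nn0 nd0 m i (!s) / (k * k) : ℕ) : ℝ) := by
      exact_mod_cast h2
    exact h3.trans (mul_le_mul_of_nonneg_left h1 (by positivity))


end Pool.Agent.Work.MP_db9399_sg.helper79
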