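import Pool.Agent.Work.MP_db9399_sg.Interface

/-!
# MP_db9399, block HOST of SWG, part A (helper79): bipartite graphs with given degrees (switching)
-/

set_option autoImplicit false

namespace Pool.Agent.Work.MP_db9399_sg.helper79

open Finset Classical

universe u v

section Cnt

variable {γ : Type u} [DecidableEq γ]

theorem cnt_insert (F : Finset γ) (q : γ) (hq : q ∉ F) (P : γ → Prop) [DecidablePred P] :
    ((insert q F).filter P).card = (F.filter P).card + if P q then 1 else 0 := by
  rw [Finset.filter_insert]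
  split_ifs with h
  · rw [Finset.card_insert_of_notMem]
    exact fun h' => hq (Finset.mem_filter.mp h').1
  · rfl

theorem cnt_erase (F : Finset γ) (q : γ) (hq : q ∈ F) (P : γ → Prop) [DecidablePred P] :
    ((F.erase q).filter P).card + (if P q then 1 else 0) = (F.filter P).card := by
  have h := cnt_insert (F.erase q) q (Finset.notMem_erase q F) P
  rw [Finset.insert_erase hq] at h
  exact h.symm

end Cnt

section Sw

variable {α : Type u} {β : Type v} [Fintype α] [Fintype β]

/-- degree of a left vertex -/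
noncomputable def e1 (F : Finset (α × β)) (x : α) : ℕ := (F.filter fun q => q.1 = x).card

/-- degree of a right vertex -/
noncomputable def e2 (F : Finset (α × β)) (y : β) : ℕ := (F.filter fun q => q.2 = y).card

omit [Fintype α] [Fintype β] in
theorem sum_e1 (F : Finset (α × β)) (T : Finset α) :
    ∑ x ∈ T, e1 F x = (F.filter fun q => q.1 ∈ T).card := by
  unfold e1
  rw [Finset.card_eq_sum_card_fiberwise (f := fun q : α × β => q.1) (t := T)
    (s := F.filter fun q => q.1 ∈ T) (fun q hq => (Finset.mem_filter.mp hq).2)]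
  refine Finset.sum_congr rfl fun x hx => ?_
  congr 1
  ext q
  rw [Finset.mem_filter, Finset.mem_filter, Finset.mem_filter]
  constructor
  · rintro ⟨h1, h2⟩
    exact ⟨⟨h1, by rw [h2]; exact hx⟩, h2⟩
  · rintro ⟨⟨h1, -⟩, h2⟩
    exact ⟨h1, h2⟩

omit [Fintype α] [Fintype β] in
theorem sum_e2 (F : Finset (α × β)) (T : Finset β) :
    ∑ x ∈ T, e2 F x = (F.filter fun q => q.2 ∈ T).card := by
  unfold e2
  rw [Finset.card_eq_sum_card_fiberwise (f := fun q : α × β => q.2) (t := T)
    (s := F.filter fun q => q.2 ∈ T) (fun q hq => (Finset.mem_filter.mp hq).2)]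
  refine Finset.sum_congr rfl fun x hx => ?_
  congr 1
  ext q
  rw [Finset.mem_filter, Finset.mem_filter, Finset.mem_filter]
  constructor
  · rintro ⟨h1, h2⟩
    exact ⟨⟨h1, by rw [h2]; exact hx⟩, h2⟩
  · rintro ⟨⟨h1, -⟩, h2⟩
    exact ⟨h1, h2⟩

omit [Fintype α] in
theorem nbr1 (F : Finset (α × β)) (x : α) [DecidablePred fun y : β => (x, y) ∈ F] :
    (univ.filter fun y : β => (x, y) ∈ F).card = e1 F x := by
  unfold e1
  refine Finset.card_bij (fun y _ => (x, y)) ?_ ?_ ?_
  · intro y hy
    exact Finset.mem_filter.mpr ⟨(Finset.mem_filter.mp hy).2, rfl⟩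
  · intro y _ y' _ h
    exact congrArg Prod.snd h
  · rintro ⟨x', y⟩ hq
    rw [Finset.mem_filter] at hq
    obtain ⟨h1, h2⟩ := hq
    simp only at h2
    subst h2
    exact ⟨y, Finset.mem_filter.mpr ⟨Finset.mem_univ _, h1⟩, rfl⟩

omit [Fintype β] in
theorem nbr2 (F : Finset (α × β)) (y : β) [DecidablePred fun x : α => (x, y) ∈ F] :
    (univ.filter fun x : α => (x, y) ∈ F).card = e2 F y := by
  unfold e2
  refine Finset.card_bij (fun x _ => (x, y)) ?_ ?_ ?_
  · intro x hx
    exact Finset.mem_filter.mpr ⟨(Finset.mem_filter.mp hx).2, rfl⟩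
  · intro x _ x' _ h
    exact congrArg Prod.fst h
  · rintro ⟨x, y'⟩ hq
    rw [Finset.mem_filter] at hq
    obtain ⟨h1, h2⟩ := hq
    simp only at h2
    subst h2
    exact ⟨x, Finset.mem_filter.mpr ⟨Finset.mem_univ _, h1⟩, rfl⟩

/-- deficient vertices on one side -/
theorem many_def {ι : Type u} (T : Finset ι) (a e : ι → ℕ) (D K : ℕ) (ha : ∀ x, a x ≤ D)
    (h : (∑ x ∈ T, e x) + K * D < ∑ x ∈ T, a x) :
    K < (T.filter fun x => e x < a x).card := by
  by_contra hcon
  push Not at hcon
  have h1 : ∑ x ∈ T, a x ≤ ∑ x ∈ T, (e x + if e x < a x then D else 0) := by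
    refine Finset.sum_le_sum fun x _ => ?_
    split_ifs with hx
    · have := ha x
      omega
    · omega
  rw [Finset.sum_add_distrib, ← Finset.sum_filter, Finset.sum_const, smul_eq_mul] at h1
  have h2 := Nat.mul_le_mul_right D hcon
  omega

/-- Switching: a bipartite graph with given degrees. -/
theorem switch (R : α → β → Prop) (dA : Finset α) (dB : Finset β) (a : α → ℕ) (b : β → ℕ)
    (D t : ℕ) (ha : ∀ x, a x ≤ D) (hb : ∀ y, b y ≤ D)
    (hRa : ∀ x, (dB.filter fun y => ¬ R x y).card ≤ t)
    (hRb : ∀ y, (dA.filter fun x => ¬ R x y).card ≤ t)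
    (hsum : ∑ x, a x = ∑ y, b y)
    (hA : (Fintype.card β - dB.card) * D + 3 * ((D + t) * D) < ∑ x ∈ dA, a x)
    (hB : (Fintype.card α - dA.card) * D + 3 * ((D + t) * D) < ∑ y ∈ dB, b y) :
    ∃ F : Finset (α × β), (∀ x y, (x, y) ∈ F → R x y) ∧ (∀ x, e1 F x = a x) ∧
      ∀ y, e2 F y = b y := by
  rw [← Finset.card_compl] at hA hB
  obtain ⟨F, hF, hmax⟩ := Finset.exists_max_image
    (univ.filter fun F : Finset (α × β) => (∀ x y, (x, y) ∈ F → R x y) ∧ (∀ x, e1 F x ≤ a x) ∧
      ∀ y, e2 F y ≤ b y) Finset.card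
    ⟨∅, Finset.mem_filter.mpr ⟨Finset.mem_univ _, by simp, by simp [e1], by simp [e2]⟩⟩
  rw [Finset.mem_filter] at hF
  obtain ⟨-, f1, f2, f3⟩ := hF
  have hmax' : ∀ F' : Finset (α × β), (∀ x y, (x, y) ∈ F' → R x y) → (∀ x, e1 F' x ≤ a x) →
      (∀ y, e2 F' y ≤ b y) → F'.card ≤ F.card := fun F' g1 g2 g3 =>
    hmax F' (Finset.mem_filter.mpr ⟨Finset.mem_univ _, g1, g2, g3⟩)
  -- no addable pair
  have aug : ∀ x y, e1 F x < a x → e2 F y < b y → R x y → (x, y) ∈ F := by
    intro x y hx hy hR
    by_contra hcon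
    have h1 := hmax' (insert (x, y) F) (by
      intro x' y' h
      rw [Finset.mem_insert] at h
      rcases h with h | h
      · obtain ⟨rfl, rfl⟩ := Prod.mk.inj h
        exact hR
      · exact f1 x' y' h) (by
      intro x'
      unfold e1
      rw [cnt_insert F _ hcon]
      have h2 := f2 x'
      unfold e1 at h2 hx
      split_ifs with h
      · simp only at h
        subst h
        omega
      · omega) (by
      intro y'
      unfold e2
      rw [cnt_insert F _ hcon]
      have h2 := f3 y'
      unfold e2 at h2 hy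
      split_ifs with h
      · simp only at h
        subst h
        omega
      · omega)
    rw [Finset.card_insert_of_notMem hcon] at h1
    omega
  -- many edges between dummies
  have hmany : 2 * ((D + t) * D) < (F.filter fun q => q.1 ∈ dA ∧ q.2 ∈ dB).card := by
    by_contra hcon
    push Not at hcon
    have hcA : (F.filter fun q => q.2 ∈ dBᶜ).card ≤ dBᶜ.card * D := by
      rw [← sum_e2]
      refine (Finset.sum_le_sum fun y _ => (f3 y).trans (hb y)).trans ?_
      rw [Finset.sum_const, smul_eq_mul]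
    have hcB : (F.filter fun q => q.1 ∈ dAᶜ).card ≤ dAᶜ.card * D := by
      rw [← sum_e1]
      refine (Finset.sum_le_sum fun y _ => (f2 y).trans (ha y)).trans ?_
      rw [Finset.sum_const, smul_eq_mul]
    have hsA : ∑ x ∈ dA, e1 F x ≤ 2 * ((D + t) * D) + dBᶜ.card * D := by
      rw [sum_e1]
      refine le_trans ?_ (Nat.add_le_add hcon hcA)
      refine (Finset.card_le_card ?_).trans (Finset.card_union_le _ _)
      intro q hq
      rw [Finset.mem_filter] at hq
      rw [Finset.mem_union, Finset.mem_filter, Finset.mem_filter]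
      by_cases h : q.2 ∈ dB
      · exact Or.inl ⟨hq.1, hq.2, h⟩
      · exact Or.inr ⟨hq.1, Finset.mem_compl.mpr h⟩
    have hsB : ∑ x ∈ dB, e2 F x ≤ 2 * ((D + t) * D) + dAᶜ.card * D := by
      rw [sum_e2]
      refine le_trans ?_ (Nat.add_le_add hcon hcB)
      refine (Finset.card_le_card ?_).trans (Finset.card_union_le _ _)
      intro q hq
      rw [Finset.mem_filter] at hq
      rw [Finset.mem_union, Finset.mem_filter, Finset.mem_filter]
      by_cases h : q.1 ∈ dA
      · exact Or.inl ⟨hq.1, h, hq.2⟩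
      · exact Or.inr ⟨hq.1, Finset.mem_compl.mpr h⟩
    have dA' := many_def dA a (e1 F) D (D + t) ha (by omega)
    have dB' := many_def dB b (e2 F) D (D + t) hb (by omega)
    obtain ⟨x0, hx0⟩ : (dA.filter fun x => e1 F x < a x).Nonempty := by
      rw [← Finset.card_pos]
      omega
    rw [Finset.mem_filter] at hx0
    have h1 : (dB.filter fun y => e2 F y < b y) ⊆
        (univ.filter fun y : β => (x0, y) ∈ F) ∪ dB.filter fun y => ¬ R x0 y := by
      intro y hy
      rw [Finset.mem_filter] at hy
      rw [Finset.mem_union, Finset.mem_filter, Finset.mem_filter]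
      by_cases h : R x0 y
      · exact Or.inl ⟨Finset.mem_univ _, aug x0 y hx0.2 hy.2 h⟩
      · exact Or.inr ⟨hy.1, h⟩
    have h2 := (Finset.card_le_card h1).trans (Finset.card_union_le _ _)
    rw [nbr1] at h2
    have h3 := hRa x0
    have h4 := f2 x0
    have h5 := ha x0
    omega
  -- no pair of deficient vertices
  have nodef : ∀ x y, e1 F x < a x → e2 F y < b y → False := by
    intro x y hx hy
    have hex : ∃ q ∈ F, (q.1 ∈ dA ∧ q.2 ∈ dB) ∧ (x, q.2) ∉ F ∧ R x q.2 ∧ (q.1, y) ∉ F ∧
        R q.1 y := by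
      by_contra hcon
      push Not at hcon
      have c1 : (F.filter fun q => q.2 ∈ univ.filter fun z => (x, z) ∈ F).card ≤ D * D := by
        rw [← sum_e2]
        refine (Finset.sum_le_sum fun y _ => (f3 y).trans (hb y)).trans ?_
        rw [Finset.sum_const, smul_eq_mul, nbr1]
        exact Nat.mul_le_mul_right D ((f2 x).trans (ha x))
      have c2 : (F.filter fun q => q.2 ∈ dB.filter fun z => ¬ R x z).card ≤ t * D := by
        rw [← sum_e2]
        refine (Finset.sum_le_sum fun y _ => (f3 y).trans (hb y)).trans ?_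
        rw [Finset.sum_const, smul_eq_mul]
        exact Nat.mul_le_mul_right D (hRa x)
      have c3 : (F.filter fun q => q.1 ∈ univ.filter fun z => (z, y) ∈ F).card ≤ D * D := by
        rw [← sum_e1]
        refine (Finset.sum_le_sum fun y _ => (f2 y).trans (ha y)).trans ?_
        rw [Finset.sum_const, smul_eq_mul, nbr2]
        exact Nat.mul_le_mul_right D ((f3 y).trans (hb y))
      have c4 : (F.filter fun q => q.1 ∈ dA.filter fun z => ¬ R z y).card ≤ t * D := by
        rw [← sum_e1]
        refine (Finset.sum_le_sum fun y _ => (f2 y).trans (ha y)).trans ?_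
        rw [Finset.sum_const, smul_eq_mul]
        exact Nat.mul_le_mul_right D (hRb y)
      have hsub : (F.filter fun q => q.1 ∈ dA ∧ q.2 ∈ dB) ⊆
          ((F.filter fun q => q.2 ∈ univ.filter fun z => (x, z) ∈ F) ∪
            (F.filter fun q => q.2 ∈ dB.filter fun z => ¬ R x z)) ∪
          ((F.filter fun q => q.1 ∈ univ.filter fun z => (z, y) ∈ F) ∪
            (F.filter fun q => q.1 ∈ dA.filter fun z => ¬ R z y)) := by
        intro q hq
        rw [Finset.mem_filter] at hq
        simp only [Finset.mem_union, Finset.mem_filter, Finset.mem_univ, true_and]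
        by_cases h1 : (x, q.2) ∈ F
        · exact Or.inl (Or.inl ⟨hq.1, h1⟩)
        by_cases h2 : R x q.2
        · by_cases h3 : (q.1, y) ∈ F
          · exact Or.inr (Or.inl ⟨hq.1, h3⟩)
          · exact Or.inr (Or.inr ⟨hq.1, hq.2.1, hcon q hq.1 hq.2 h1 h2 h3⟩)
        · exact Or.inl (Or.inr ⟨hq.1, hq.2.2, h2⟩)
      have h1 := (Finset.card_le_card hsub).trans (Finset.card_union_le _ _)
      have h2 := Finset.card_union_le (F.filter fun q => q.2 ∈ univ.filter fun z => (x, z) ∈ F)
        (F.filter fun q => q.2 ∈ dB.filter fun z => ¬ R x z)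
      have h3 := Finset.card_union_le (F.filter fun q => q.1 ∈ univ.filter fun z => (z, y) ∈ F)
        (F.filter fun q => q.1 ∈ dA.filter fun z => ¬ R z y)
      have h4 : 2 * ((D + t) * D) = D * D + t * D + (D * D + t * D) := by ring
      omega
    obtain ⟨q, hq, -, h1, h2, h3, h4⟩ := hex
    have hqx : q.1 ≠ x := by
      rintro rfl
      exact h1 hq
    have hqy : q.2 ≠ y := by
      rintro rfl
      exact h3 hq
    have n1 : (q.1, y) ∉ F.erase q := fun h => h3 (Finset.mem_of_mem_erase h)
    have n2 : (x, q.2) ∉ insert (q.1, y) (F.erase q) := by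
      intro h
      rw [Finset.mem_insert] at h
      rcases h with h | h
      · exact hqx (congrArg Prod.fst h).symm
      · exact h1 (Finset.mem_of_mem_erase h)
    have h5 := hmax' (insert (x, q.2) (insert (q.1, y) (F.erase q))) (by
      intro x' y' h
      rw [Finset.mem_insert, Finset.mem_insert] at h
      rcases h with h | h | h
      · obtain ⟨rfl, rfl⟩ := Prod.mk.inj h
        exact h2
      · obtain ⟨rfl, rfl⟩ := Prod.mk.inj h
        exact h4
      · exact f1 x' y' (Finset.mem_of_mem_erase h)) (by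
      intro x'
      unfold e1
      rw [cnt_insert _ _ n2, cnt_insert _ _ n1]
      have h6 := cnt_erase F q hq (fun q => q.1 = x')
      have h7 := f2 x'
      unfold e1 at h7 hx
      by_cases hx1 : x = x'
      · subst hx1
        simp only [hqx, if_false, if_true] at h6 ⊢
        omega
      · simp only [hx1, if_false] at h6 ⊢
        omega) (by
      intro y'
      unfold e2
      rw [cnt_insert _ _ n2, cnt_insert _ _ n1]
      have h6 := cnt_erase F q hq (fun q => q.2 = y')
      have h7 := f3 y'
      unfold e2 at h7 hy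
      by_cases hy1 : y = y'
      · subst hy1
        simp only [hqy, if_false, if_true] at h6 ⊢
        omega
      · simp only [hy1, if_false] at h6 ⊢
        omega)
    rw [Finset.card_insert_of_notMem n2, Finset.card_insert_of_notMem n1,
      Finset.card_erase_of_mem hq] at h5
    have h6 : 0 < F.card := Finset.card_pos.mpr ⟨q, hq⟩
    omega
  have tot1 : ∑ x, e1 F x = F.card := by
    rw [sum_e1]
    simp
  have tot2 : ∑ y, e2 F y = F.card := by
    rw [sum_e2]
    simp
  have ex1 : (∀ x, e1 F x = a x) ∨ ∃ x, e1 F x < a x := by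
    by_cases h : ∃ x, e1 F x < a x
    · exact Or.inr h
    · push Not at h
      exact Or.inl fun x => le_antisymm (f2 x) (h x)
  have ex2 : (∀ y, e2 F y = b y) ∨ ∃ y, e2 F y < b y := by
    by_cases h : ∃ y, e2 F y < b y
    · exact Or.inr h
    · push Not at h
      exact Or.inl fun y => le_antisymm (f3 y) (h y)
  rcases ex1 with g1 | ⟨x, g1⟩
  · rcases ex2 with g2 | ⟨y, g2⟩
    · exact ⟨F, f1, g1, g2⟩
    · exfalso
      have h1 : ∑ y, e2 F y < ∑ y, b y :=
        Finset.sum_lt_sum (fun y _ => f3 y) ⟨y, Finset.mem_univ _, g2⟩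
      have h2 : ∑ x, e1 F x = ∑ x, a x := Finset.sum_congr rfl fun x _ => g1 x
      omega
  · rcases ex2 with g2 | ⟨y, g2⟩
    · exfalso
      have h1 : ∑ y, e1 F y < ∑ y, a y :=
        Finset.sum_lt_sum (fun y _ => f2 y) ⟨x, Finset.mem_univ _, g1⟩
      have h2 : ∑ x, e2 F x = ∑ x, b x := Finset.sum_congr rfl fun x _ => g2 x
      omega
    · exact (nodef x y g1 g2).elim

end Sw

end Pool.Agent.Work.MP_db9399_sg.helper79
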