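import Pool.Agent.Work.MP_db9399_sg_helper79.HOSTA

/-!
# MP_db9399, block HOST of SWG, part B (helper79): one gadget
-/

set_option autoImplicit false

namespace Pool.Agent.Work.MP_db9399_sg.helper79

open Finset Classical

universe u v

section Equi

theorem equi (T : Type v) [Fintype T] (K : ℕ) (hK : 0 < K) :
    ∃ f : T → Fin K, ∀ c, Fintype.card T / K ≤ (univ.filter fun x => f x = c).card ∧
      (univ.filter fun x => f x = c).card ≤ Fintype.card T / K + 1 := by
  let e := Fintype.equivFin T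
  refine ⟨fun x => ⟨(e x).val % K, Nat.mod_lt _ hK⟩, fun c => ?_⟩
  have h1 : (univ.filter fun x => (⟨(e x).val % K, Nat.mod_lt _ hK⟩ : Fin K) = c).card =
      (Fintype.card T).count (· ≡ c.val [MOD K]) := by
    rw [Nat.count_eq_card_filter_range]
    refine Finset.card_bij (fun x _ => (e x).val) ?_ ?_ ?_
    · intro x hx
      rw [Finset.mem_filter] at hx ⊢
      refine ⟨Finset.mem_range.mpr (e x).isLt, ?_⟩
      have := congrArg Fin.val hx.2
      simp only at this
      unfold Nat.ModEq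
      rw [this, Nat.mod_eq_of_lt c.isLt]
    · intro x _ y _ h
      exact e.injective (Fin.ext h)
    · intro j hj
      rw [Finset.mem_filter, Finset.mem_range] at hj
      refine ⟨e.symm ⟨j, hj.1⟩, ?_, ?_⟩
      · rw [Finset.mem_filter]
        refine ⟨Finset.mem_univ _, ?_⟩
        apply Fin.ext
        simp only [Equiv.apply_symm_apply]
        have := hj.2
        unfold Nat.ModEq at this
        rw [this, Nat.mod_eq_of_lt c.isLt]
      · simp only [Equiv.apply_symm_apply]
  rw [h1, Nat.count_modEq_card _ hK]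
  split_ifs <;> omega

/-- the cross relation of the classes -/
def crs {k : ℕ} (p q : Fin k × Fin k) : Prop := p.1 = q.1 ∨ p.2 = q.2

theorem crs_comm {k : ℕ} (p q : Fin k × Fin k) : crs p q ↔ crs q p := by
  unfold crs
  constructor
  · rintro (h | h)
    · exact Or.inl h.symm
    · exact Or.inr h.symm
  · rintro (h | h)
    · exact Or.inl h.symm
    · exact Or.inr h.symm

theorem cls_ex (R : Type u) [Fintype R] (n k m : ℕ) (hk : 0 < k) (h : Fintype.card R + n = m) :
    ∃ c : R ⊕ Fin n → Fin k × Fin k,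
      (∀ z, n / (k * k) ≤ (univ.filter fun x : Fin n => c (Sum.inr x) = z).card) ∧
      ∀ z, (univ.filter fun x => c x = z).card ≤ m / (k * k) + 2 := by
  have hkk : 0 < k * k := Nat.mul_pos hk hk
  obtain ⟨f, hf⟩ := equi R (k * k) hkk
  obtain ⟨g, hg⟩ := equi (Fin n) (k * k) hkk
  refine ⟨Sum.elim (fun x => finProdFinEquiv.symm (f x)) (fun x => finProdFinEquiv.symm (g x)),
    ?_, ?_⟩
  · intro z
    have h1 := (hg (finProdFinEquiv z)).1
    rw [Fintype.card_fin] at h1
    refine h1.trans (le_of_eq ?_)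
    congr 1
    ext x
    rw [Finset.mem_filter, Finset.mem_filter, Sum.elim_inr, Equiv.symm_apply_eq]
  · intro z
    have h1 := (hg (finProdFinEquiv z)).2
    have h2 := (hf (finProdFinEquiv z)).2
    rw [Fintype.card_fin] at h1
    have h3 : (univ.filter fun x : R ⊕ Fin n => (Sum.elim (fun x => finProdFinEquiv.symm (f x))
        (fun x => finProdFinEquiv.symm (g x)) x : Fin k × Fin k) = z) ⊆
        (univ.filter fun x => f x = finProdFinEquiv z).map Function.Embedding.inl ∪
          (univ.filter fun x => g x = finProdFinEquiv z).map Function.Embedding.inr := by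
      intro x hx
      rw [Finset.mem_filter] at hx
      rw [Finset.mem_union, Finset.mem_map, Finset.mem_map]
      rcases x with x | x
      · left
        refine ⟨x, ?_, rfl⟩
        rw [Finset.mem_filter]
        have h := hx.2
        rw [Sum.elim_inl, Equiv.symm_apply_eq] at h
        exact ⟨Finset.mem_univ _, h⟩
      · right
        refine ⟨x, ?_, rfl⟩
        rw [Finset.mem_filter]
        have h := hx.2
        rw [Sum.elim_inr, Equiv.symm_apply_eq] at h
        exact ⟨Finset.mem_univ _, h⟩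
    have h4 := (Finset.card_le_card h3).trans (Finset.card_union_le _ _)
    rw [Finset.card_map, Finset.card_map] at h4
    have h5 : Fintype.card R / (k * k) + n / (k * k) ≤ m / (k * k) := by
      rw [← h]
      exact Nat.div_add_div_le_add_div
    omega

theorem crs_card {γ : Type v} [Fintype γ] {k : ℕ} (c : γ → Fin k × Fin k) (M : ℕ)
    (h : ∀ z, (univ.filter fun x => c x = z).card ≤ M) (p : Fin k × Fin k) :
    (univ.filter fun x => crs p (c x)).card ≤ 2 * k * M := by
  have h1 : (univ.filter fun x => crs p (c x)) ⊆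
      ((univ : Finset (Fin k)).biUnion fun y => univ.filter fun x => c x = (p.1, y)) ∪
        (univ : Finset (Fin k)).biUnion fun y => univ.filter fun x => c x = (y, p.2) := by
    intro x hx
    rw [Finset.mem_filter] at hx
    rw [Finset.mem_union, Finset.mem_biUnion, Finset.mem_biUnion]
    rcases hx.2 with h2 | h2
    · left
      refine ⟨(c x).2, Finset.mem_univ _, ?_⟩
      rw [Finset.mem_filter, h2]
      exact ⟨Finset.mem_univ _, rfl⟩
    · right
      refine ⟨(c x).1, Finset.mem_univ _, ?_⟩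
      rw [Finset.mem_filter, h2]
      exact ⟨Finset.mem_univ _, rfl⟩
  have h2 := (Finset.card_le_card h1).trans (Finset.card_union_le _ _)
  have h3 : ((univ : Finset (Fin k)).biUnion fun y =>
      univ.filter fun x => c x = (p.1, y)).card ≤ k * M := by
    refine Finset.card_biUnion_le.trans ?_
    refine (Finset.sum_le_sum fun y _ => h (p.1, y)).trans ?_
    rw [Finset.sum_const, Finset.card_univ, Fintype.card_fin, smul_eq_mul]
  have h4 : ((univ : Finset (Fin k)).biUnion fun y =>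
      univ.filter fun x => c x = (y, p.2)).card ≤ k * M := by
    refine Finset.card_biUnion_le.trans ?_
    refine (Finset.sum_le_sum fun y _ => h (y, p.2)).trans ?_
    rw [Finset.sum_const, Finset.card_univ, Fintype.card_fin, smul_eq_mul]
  have h5 : 2 * k * M = k * M + k * M := by ring
  omega

theorem crs_cod {R : Type u} [Fintype R] {n k : ℕ} (c : R ⊕ Fin n → Fin k × Fin k) (L : ℕ)
    (h : ∀ z, L ≤ (univ.filter fun x : Fin n => c (Sum.inr x) = z).card)
    (p p' : Fin k × Fin k) :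
    L ≤ (univ.filter fun x : R ⊕ Fin n => x.isRight = true ∧ crs p (c x) ∧ crs p' (c x)).card := by
  refine (h (p.1, p'.2)).trans ?_
  rw [← Finset.card_map (Function.Embedding.inr : Fin n ↪ R ⊕ Fin n)]
  apply Finset.card_le_card
  intro x hx
  rw [Finset.mem_map] at hx
  obtain ⟨y, hy, rfl⟩ := hx
  rw [Finset.mem_filter] at hy ⊢
  refine ⟨Finset.mem_univ _, rfl, Or.inl ?_, Or.inr ?_⟩
  · change p.1 = (c (Sum.inr y)).1
    rw [hy.2]
  · change p'.2 = (c (Sum.inr y)).2
    rw [hy.2]

end Equi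

section Gadget

/-- target degrees of one side -/
noncomputable def tgt {R : Type u} {n : ℕ} (h : R → ℕ) (Q : Finset (Fin n)) (D : ℕ) :
    R ⊕ Fin n → ℕ :=
  Sum.elim (fun x => D - h x) (fun x => D - if x ∈ Q then 1 else 0)

theorem sum_tgt {R : Type u} [Fintype R] {n : ℕ} (h : R → ℕ) (Q : Finset (Fin n)) (D : ℕ)
    (hD : 1 ≤ D) (hh : ∀ x, h x ≤ D) :
    (∑ x, tgt h Q D x) + (∑ x, h x) + Q.card = (Fintype.card R + n) * D := by
  rw [Fintype.sum_sum_type]
  unfold tgt
  simp only [Sum.elim_inl, Sum.elim_inr]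
  have h1 : (∑ x, (D - h x)) + ∑ x, h x = Fintype.card R * D := by
    rw [← Finset.sum_add_distrib]
    rw [Finset.sum_congr rfl fun x _ => Nat.sub_add_cancel (hh x), Finset.sum_const,
      Finset.card_univ, smul_eq_mul]
  have h2 : (∑ x : Fin n, (D - if x ∈ Q then 1 else 0)) + Q.card = n * D := by
    have h3 : Q.card = ∑ x : Fin n, if x ∈ Q then 1 else 0 := by
      rw [← Finset.sum_filter, Finset.sum_const, smul_eq_mul, mul_one]
      congr 1
      ext x
      simp
    rw [h3, ← Finset.sum_add_distrib]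
    rw [Finset.sum_congr rfl fun x _ => Nat.sub_add_cancel (m := if x ∈ Q then 1 else 0)
      (n := D) (by split_ifs <;> omega), Finset.sum_const,
      Finset.card_univ, smul_eq_mul, Fintype.card_fin]
  rw [add_mul]
  omega

theorem tgt_lo {R : Type u} {n : ℕ} (h : R → ℕ) (Q : Finset (Fin n)) (D t : ℕ)
    (hh : ∀ x, 8 * h x ≤ D) (ht : 32 * (t + 1) ≤ D) (x : R ⊕ Fin n) : t ≤ tgt h Q D x := by
  unfold tgt
  rcases x with x | x
  · rw [Sum.elim_inl]
    have := hh x
    omega
  · rw [Sum.elim_inr]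
    split_ifs <;> omega

theorem tgt_hi {R : Type u} {n : ℕ} (h : R → ℕ) (Q : Finset (Fin n)) (D : ℕ)
    (x : R ⊕ Fin n) : tgt h Q D x ≤ D := by
  unfold tgt
  rcases x with x | x
  · rw [Sum.elim_inl]
    exact Nat.sub_le _ _
  · rw [Sum.elim_inr]
    exact Nat.sub_le _ _

/-- the dummies -/
noncomputable def dmy (R : Type u) [Fintype R] (n : ℕ) : Finset (R ⊕ Fin n) :=
  univ.filter fun x => x.isRight = true

theorem card_dmy_compl (R : Type u) [Fintype R] (n : ℕ) :
    Fintype.card (R ⊕ Fin n) - (dmy R n).card = Fintype.card R := by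
  have h1 : (dmy R n).card = n := by
    have h2 : dmy R n = univ.map (Function.Embedding.inr : Fin n ↪ R ⊕ Fin n) := by
      ext x
      unfold dmy
      rcases x with x | x
      · simp
      · simp
    rw [h2, Finset.card_map, Finset.card_univ, Fintype.card_fin]
  rw [h1, Fintype.card_sum, Fintype.card_fin, Nat.add_sub_cancel]

theorem dmy_sum (R : Type u) [Fintype R] (n : ℕ) (a : R ⊕ Fin n → ℕ) :
    ∑ x ∈ dmy R n, a x = ∑ x : Fin n, a (Sum.inr x) := by
  have h1 : dmy R n = univ.map (Function.Embedding.inr : Fin n ↪ R ⊕ Fin n) := by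
    ext x
    unfold dmy
    rcases x with x | x
    · simp
    · simp
  rw [h1, Finset.sum_map]
  rfl

theorem arith1 (D m n r t S : ℕ) (hD : 1 ≤ D) (ht : 32 * (t + 1) ≤ D) (hr : 4 * r ≤ m)
    (hn : 3 * m ≤ 4 * n) (hm : 8 * D ≤ m) (hS : n * (D - (t + 1)) ≤ S) :
    r * D + 3 * ((D + t) * D) < S := by
  refine lt_of_lt_of_le ?_ hS
  obtain ⟨s, hs⟩ : ∃ s, s = t + 1 := ⟨_, rfl⟩
  rw [← hs] at ht ⊢
  have hts : t ≤ s := by omega
  obtain ⟨e, he⟩ : ∃ e, D = e + s := ⟨D - s, by omega⟩
  have h0 : D - s = e := by omega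
  rw [h0]
  have h1 : 4 * (r * D) ≤ m * D := by
    have := Nat.mul_le_mul_right D hr
    linarith
  have h2 : 3 * (m * e) ≤ 4 * (n * e) := by
    have := Nat.mul_le_mul_right e hn
    linarith
  have h3 : 32 * e ≥ 31 * D := by omega
  have h4 : 31 * (m * D) ≤ 32 * (m * e) := by
    have := Nat.mul_le_mul_left m h3
    linarith
  have h5 : 8 * (D * D) ≤ m * D := by
    have := Nat.mul_le_mul_right D hm
    linarith
  have h6 : 32 * (t * D) ≤ D * D := by
    have : 32 * t ≤ D := by omega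
    have := Nat.mul_le_mul_right D this
    linarith
  have h7 : 0 < D * D := Nat.mul_pos hD hD
  have h8 : (D + t) * D = D * D + t * D := by ring
  rw [h8]
  omega

theorem dmy_lo {R : Type u} [Fintype R] {n : ℕ} (h : R → ℕ) (Q : Finset (Fin n)) (D t : ℕ)
    (bd : R ⊕ Fin n → ℕ) (hbd : ∀ x, bd x ≤ t) :
    n * (D - (t + 1)) ≤ ∑ x ∈ dmy R n, (tgt h Q D x - bd x) := by
  rw [dmy_sum]
  have h1 : n * (D - (t + 1)) = ∑ x : Fin n, (D - (t + 1)) := by
    rw [Finset.sum_const, Finset.card_univ, Fintype.card_fin, smul_eq_mul]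
  rw [h1]
  refine Finset.sum_le_sum fun x _ => ?_
  have h2 := hbd (Sum.inr x)
  unfold tgt
  rw [Sum.elim_inr]
  split_ifs <;> omega

theorem sum_sub {γ : Type v} [Fintype γ] (f g : γ → ℕ) (h : ∀ x, g x ≤ f x) :
    (∑ x, (f x - g x)) + ∑ x, g x = ∑ x, f x := by
  rw [← Finset.sum_add_distrib]
  exact Finset.sum_congr rfl fun x _ => Nat.sub_add_cancel (h x)

/-- One gadget. -/
theorem gadget (k D m na nb : ℕ) {Ra Rb : Type u} [Fintype Ra] [Fintype Rb] (ha : Ra → ℕ)
    (hb : Rb → ℕ) (hk : 0 < k) (hD : 1 ≤ D) (ht : 32 * (2 * k * (m / (k * k) + 2) + 1) ≤ D)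
    (ha8 : ∀ x, 8 * ha x ≤ D) (hb8 : ∀ x, 8 * hb x ≤ D)
    (hra : 4 * Fintype.card Ra ≤ m) (hrb : 4 * Fintype.card Rb ≤ m)
    (hna : Fintype.card Ra + na = m) (hnb : Fintype.card Rb + nb = m) (hm : 8 * D ≤ m)
    (hab : |((∑ x, ha x : ℕ) : ℤ) - (∑ x, hb x : ℕ)| ≤ D) :
    ∃ E : Ra ⊕ Fin na → Rb ⊕ Fin nb → Prop, (∀ x y, ¬ E (Sum.inl x) (Sum.inl y)) ∧
      (∀ x, (univ.filter fun y => E (Sum.inl x) y).card + ha x = D) ∧
      (∀ y, (univ.filter fun x => E x (Sum.inl y)).card + hb y = D) ∧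
      (∀ x, (univ.filter fun y => E (Sum.inr x) y).card ≤ D ∧
        D ≤ (univ.filter fun y => E (Sum.inr x) y).card + 1) ∧
      (∀ y, (univ.filter fun x => E x (Sum.inr y)).card ≤ D ∧
        D ≤ (univ.filter fun x => E x (Sum.inr y)).card + 1) ∧
      (univ.filter fun x : Fin na => (univ.filter fun y => E (Sum.inr x) y).card + 1 = D).card +
        (univ.filter fun y : Fin nb => (univ.filter fun x => E x (Sum.inr y)).card + 1 = D).card =
        (((∑ x, ha x : ℕ) : ℤ) - (∑ x, hb x : ℕ)).natAbs ∧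
      (∀ x x', nb / (k * k) ≤ (univ.filter fun y => E x y ∧ E x' y).card) ∧
      ∀ y y', na / (k * k) ≤ (univ.filter fun x => E x y ∧ E x y').card := by
  obtain ⟨ca, ca1, ca2⟩ := cls_ex Ra na k m hk hna
  obtain ⟨cb, cb1, cb2⟩ := cls_ex Rb nb k m hk hnb
  set t := 2 * k * (m / (k * k) + 2) with htd
  -- sizes of the deficit sets
  obtain ⟨A, hA⟩ : ∃ A, A = ∑ x, ha x := ⟨_, rfl⟩
  obtain ⟨B, hB⟩ : ∃ B, B = ∑ x, hb x := ⟨_, rfl⟩
  rw [← hA, ← hB] at hab
  rw [← hA, ← hB]
  rw [abs_le] at hab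
  have hsa : B - A ≤ (univ : Finset (Fin na)).card := by
    rw [Finset.card_univ, Fintype.card_fin]
    omega
  have hsb : A - B ≤ (univ : Finset (Fin nb)).card := by
    rw [Finset.card_univ, Fintype.card_fin]
    omega
  obtain ⟨Qa, -, hQa⟩ := Finset.exists_subset_card_eq hsa
  obtain ⟨Qb, -, hQb⟩ := Finset.exists_subset_card_eq hsb
  -- base graph
  obtain ⟨Bs, hBs⟩ : ∃ Bs : Ra ⊕ Fin na → Rb ⊕ Fin nb → Prop, ∀ x y, Bs x y ↔
      ((x.isRight = true ∨ y.isRight = true) ∧ crs (ca x) (cb y)) := ⟨_, fun _ _ => Iff.rfl⟩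
  obtain ⟨ba, hba⟩ : ∃ ba : Ra ⊕ Fin na → ℕ, ∀ x, ba x = (univ.filter fun y => Bs x y).card :=
    ⟨_, fun _ => rfl⟩
  obtain ⟨bb, hbb⟩ : ∃ bb : Rb ⊕ Fin nb → ℕ, ∀ y, bb y = (univ.filter fun x => Bs x y).card :=
    ⟨_, fun _ => rfl⟩
  have hbat : ∀ x, ba x ≤ t := by
    intro x
    rw [hba]
    refine (Finset.card_le_card ?_).trans (crs_card cb _ cb2 (ca x))
    intro y hy
    rw [Finset.mem_filter] at hy ⊢
    exact ⟨Finset.mem_univ _, ((hBs x y).mp hy.2).2⟩
  have hbbt : ∀ y, bb y ≤ t := by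
    intro y
    rw [hbb]
    refine (Finset.card_le_card ?_).trans (crs_card ca _ ca2 (cb y))
    intro x hx
    rw [Finset.mem_filter] at hx ⊢
    exact ⟨Finset.mem_univ _, (crs_comm _ _).mp ((hBs x y).mp hx.2).2⟩
  have hbsum : ∑ x, ba x = ∑ y, bb y := by
    have h1 : ∀ x, ba x = ∑ y, if Bs x y then 1 else 0 := by
      intro x
      rw [hba, Finset.card_filter]
    have h2 : ∀ y, bb y = ∑ x, if Bs x y then 1 else 0 := by
      intro y
      rw [hbb, Finset.card_filter]
    rw [Finset.sum_congr rfl fun x _ => h1 x, Finset.sum_congr rfl fun y _ => h2 y]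
    exact Finset.sum_comm
  obtain ⟨R, hR⟩ : ∃ R : Ra ⊕ Fin na → Rb ⊕ Fin nb → Prop, ∀ x y, R x y ↔
      ((x.isRight = true ∨ y.isRight = true) ∧ ¬ Bs x y) := ⟨_, fun _ _ => Iff.rfl⟩
  have hta : ∀ x, ba x ≤ tgt ha Qa D x := fun x => (hbat x).trans (tgt_lo ha Qa D t ha8 ht x)
  have htb : ∀ x, bb x ≤ tgt hb Qb D x := fun x => (hbbt x).trans (tgt_lo hb Qb D t hb8 ht x)
  obtain ⟨F, F1, F2, F3⟩ := switch R (dmy Ra na) (dmy Rb nb)
    (fun x => tgt ha Qa D x - ba x) (fun y => tgt hb Qb D y - bb y) D t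
    (fun x => (Nat.sub_le _ _).trans (tgt_hi ha Qa D x))
    (fun x => (Nat.sub_le _ _).trans (tgt_hi hb Qb D x))
    (by
      intro x
      have h0 := hbat x
      rw [hba] at h0
      refine le_trans (Finset.card_le_card ?_) h0
      intro y hy
      rw [Finset.mem_filter] at hy ⊢
      refine ⟨Finset.mem_univ _, ?_⟩
      by_contra hcon
      refine hy.2 ((hR x y).mpr ⟨Or.inr ?_, hcon⟩)
      exact (Finset.mem_filter.mp hy.1).2)
    (by
      intro y
      have h0 := hbbt y
      rw [hbb] at h0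
      refine le_trans (Finset.card_le_card ?_) h0
      intro x hx
      rw [Finset.mem_filter] at hx ⊢
      refine ⟨Finset.mem_univ _, ?_⟩
      by_contra hcon
      refine hx.2 ((hR x y).mpr ⟨Or.inl ?_, hcon⟩)
      exact (Finset.mem_filter.mp hx.1).2)
    (by
      have h1 := sum_sub (tgt ha Qa D) ba hta
      have h2 := sum_sub (tgt hb Qb D) bb htb
      have h3 := sum_tgt ha Qa D hD (fun x => by have := ha8 x; omega)
      have h4 := sum_tgt hb Qb D hD (fun x => by have := hb8 x; omega)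
      rw [hna, ← hA, hQa] at h3
      rw [hnb, ← hB, hQb] at h4
      omega)
    (by
      rw [card_dmy_compl]
      exact arith1 D m na _ t _ hD ht hrb (by omega) hm (dmy_lo ha Qa D t ba hbat))
    (by
      rw [card_dmy_compl]
      exact arith1 D m nb _ t _ hD ht hra (by omega) hm (dmy_lo hb Qb D t bb hbbt))
  obtain ⟨E, hE⟩ : ∃ E : Ra ⊕ Fin na → Rb ⊕ Fin nb → Prop, ∀ x y, E x y ↔
      (Bs x y ∨ (x, y) ∈ F) := ⟨_, fun _ _ => Iff.rfl⟩
  have dgA : ∀ x, (univ.filter fun y => E x y).card = tgt ha Qa D x := by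
    intro x
    rw [Finset.filter_congr (fun y _ => hE x y), Finset.filter_or, Finset.card_union_of_disjoint, ← hba, nbr1, F2]
    · exact Nat.add_sub_cancel' (hta x)
    · rw [Finset.disjoint_left]
      intro y hy hy'
      rw [Finset.mem_filter] at hy hy'
      exact ((hR x y).mp (F1 x y hy'.2)).2 hy.2
  have dgB : ∀ y, (univ.filter fun x => E x y).card = tgt hb Qb D y := by
    intro y
    rw [Finset.filter_congr (fun x _ => hE x y), Finset.filter_or, Finset.card_union_of_disjoint, ← hbb, nbr2, F3]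
    · exact Nat.add_sub_cancel' (htb y)
    · rw [Finset.disjoint_left]
      intro x hx hx'
      rw [Finset.mem_filter] at hx hx'
      exact ((hR x y).mp (F1 x y hx'.2)).2 hx.2
  have tin : ∀ x, tgt ha Qa D (Sum.inr x) = D - if x ∈ Qa then 1 else 0 := fun x => rfl
  have tib : ∀ x, tgt hb Qb D (Sum.inr x) = D - if x ∈ Qb then 1 else 0 := fun x => rfl
  refine ⟨E, ?_, ?_, ?_, ?_, ?_, ?_, ?_, ?_⟩
  · intro x y h
    rcases (hE _ _).mp h with h | h
    · have := ((hBs _ _).mp h).1
      simp at this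
    · have := ((hR _ _).mp (F1 _ _ h)).1
      simp at this
  · intro x
    rw [dgA]
    change D - ha x + ha x = D
    have := ha8 x
    omega
  · intro x
    rw [dgB]
    change D - hb x + hb x = D
    have := hb8 x
    omega
  · intro x
    rw [dgA, tin]
    split_ifs <;> omega
  · intro x
    rw [dgB, tib]
    split_ifs <;> omega
  · have h1 : (univ.filter fun x : Fin na =>
        (univ.filter fun y => E (Sum.inr x) y).card + 1 = D) = Qa := by
      ext x
      rw [Finset.mem_filter, dgA, tin]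
      constructor
      · rintro ⟨-, h⟩
        by_contra hx
        rw [if_neg hx] at h
        omega
      · intro hx
        rw [if_pos hx]
        exact ⟨Finset.mem_univ _, by omega⟩
    have h2 : (univ.filter fun y : Fin nb =>
        (univ.filter fun x => E x (Sum.inr y)).card + 1 = D) = Qb := by
      ext x
      rw [Finset.mem_filter, dgB, tib]
      constructor
      · rintro ⟨-, h⟩
        by_contra hx
        rw [if_neg hx] at h
        omega
      · intro hx
        rw [if_pos hx]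
        exact ⟨Finset.mem_univ _, by omega⟩
    rw [h1, h2, hQa, hQb]
    omega
  · intro x x'
    refine (crs_cod cb (nb / (k * k)) cb1 (ca x) (ca x')).trans (Finset.card_le_card ?_)
    intro y hy
    rw [Finset.mem_filter] at hy ⊢
    exact ⟨Finset.mem_univ _, (hE _ _).mpr (Or.inl ((hBs _ _).mpr ⟨Or.inr hy.2.1, hy.2.2.1⟩)),
      (hE _ _).mpr (Or.inl ((hBs _ _).mpr ⟨Or.inr hy.2.1, hy.2.2.2⟩))⟩
  · intro y y'
    refine (crs_cod ca (na / (k * k)) ca1 (cb y) (cb y')).trans (Finset.card_le_card ?_)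
    intro x hx
    rw [Finset.mem_filter] at hx ⊢
    exact ⟨Finset.mem_univ _,
      (hE _ _).mpr (Or.inl ((hBs _ _).mpr ⟨Or.inl hx.2.1, (crs_comm _ _).mp hx.2.2.1⟩)),
      (hE _ _).mpr (Or.inl ((hBs _ _).mpr ⟨Or.inl hx.2.1, (crs_comm _ _).mp hx.2.2.2⟩))⟩

end Gadget

end Pool.Agent.Work.MP_db9399_sg.helper79
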